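import Pool.Agent.TH270.NG.Law3
import Pool.Agent.TH270.MS.GrowthF
import Pool.Agent.LeadMoved.MP_696deb_nt.RieszLaw

/-!
# The original numerical law of Birch and Swinnerton-Dyer is equivalent, in logarithmic mean, to the rank form
and the Riemann hypothesis

Let `C : y² = x³ + a x + b` be an elliptic curve over `ℚ`, `a, b ∈ ℤ`, let `N_p` be the number of affine
points modulo a prime `p ∤ 2Δ`, and let `N(X)` be the number of rational points of `C` (with the point at
infinity) whose `x`-coordinate `m/n` has `max (|m|, n) ≤ X`, so that `N(X)² ≍ (log X)^rank`. Birch and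
Swinnerton-Dyer were led to their conjecture by the comparison of `N(X)²` with the product

`P(X) = ∏_{p ≤ X, p ∤ 2Δ} (N_p + 1)/p`.

Goldfeld (1982) proved that an asymptotic formula for this product implies the Riemann hypothesis for `C`;
whether the rank form and the Riemann hypothesis imply it is not known (pointwise it is stronger). It is shown
that the following are EQUIVALENT for every curve:

* (1) the order of vanishing of the `L`-function at `1` is the rank, and the `L`-function has no zeros with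
  `Re s > 1` (by the functional equation this is the Riemann hypothesis for `C`);
* (2) `(log X)⁻¹ ∫_e^X |log (N(x)²/P(x)) - c| dx/x → 0` for some `c`;
* (3) `(log X)⁻¹ ∫_e^X (log (N(x)²/P(x)) - c)² dx/x → 0` for some `c`;
* (4) `∫_e^X |log (N(x)²/P(x))| dx/x ≤ B log X` for some `B` and all large `X`;
* (5) `N(X)²/P(X)` tends to a positive limit as `X → ∞` outside a measurable set `S` of finite logarithmic
  measure, and `log P(X) = O(X^ε)` for every `ε > 0`;
* (6) the Mestre-Nagao sums `S(x) = ∑_{p ≤ x, p ∤ 2Δ} a_p log p / p`, `a_p = p - N_p`, compute the rank in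
  logarithmic mean: `(log X)⁻¹ ∫_e^X |S(x)/log x - (1/2 - rank)| dx/x → 0`;
* (7) for every `k > 0` the quotient `N(X)² / Π_k(X)` tends to a positive limit, where
  `Π_k(X) = ∏_{p ≤ X, p ∤ 2Δ} ((N_p + 1)/p) ^ ((1 - log p / log X)^k)` (`k = 0` is the original product);
* (8) `N(X)²` is of the order of a product `∏_{p ≤ X^β} ((N_p + 1)/p) ^ w(log p / log X)` for ONE bounded
  measurable weight `w` on `(0, β]`, not almost everywhere zero near `β`, with `∫_0 |w(u) - 1| du/u < ∞` (for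
  instance `w = 1`: the original product);
* (9) for one such weight the logarithm of the quotient is `o(log log X)`.

So the law which led to the conjecture holds in logarithmic mean, in the weak sense (4) or in the strong sense
(3), or pointwise outside a small set with a weak bound for the product (5), if and only if the rank form of the
conjecture and the Riemann hypothesis are true.

Proof. (1) ⇒ (3): let `D(x)` be the sum over the prime powers `≤ x` in `log L(C, 1)`. Without zeros in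
`Re s > 1` the Laplace transform of `D(e^t) + m log t + const` is `log L(C, 1 + s)/s` up to elementary terms,
holomorphic for `Re s > 0`. Near the zeros on the central line the logarithm is locally square integrable,
uniformly up to the boundary, with a bound from the number of zeros: here the polynomial growth of the
`L`-function to the left of the centre is used, which is proved from the newform. Because of the factor `1/s` the
boundary values are square integrable, and Plancherel's theorem gives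
`∫_e^∞ (D(x) + m log log x + const)² dx/x < ∞`. The passage to primes is Rankin and Selberg's theorem, the number
`N(X)` is Néron's theorem. (4) ⇒ (1): the bound of the means continues the Laplace transform to `Re s > 0`, and
`s → 0` gives the order. (1) ⇒ (5): a square integrable function is small outside a set of finite measure; the
bound of the product is due to helper942, as is the equivalence of (1), (7), (8), (9) (`RieszLaw`, the former
version of this file). (5) ⇒ (1): the bound gives the Riemann hypothesis, then (1) ⇒ (5) with the order of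
vanishing in place of the rank gives the order, because the complement of `S` is unbounded. (6) follows by
partial summation and Rankin-Selberg in the form `∑ (a_p² - p) log p / p² = o(log x)`; conversely it bounds
`|log P(x)|` in the mean and so continues the Laplace transform of `log P(e^u)` to `Re s > 0`.
-/

set_option autoImplicit false

namespace Pool.Agent.Results.MP_696deb_nt.OriginalLaw

open Pool.Agent.W263.BSD Filter Topology Classical MeasureTheory Set
open CongruenceSubgroup UpperHalfPlane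
open Pool.Agent.TH270.MS Pool.Agent.TH270.MS.EQ
open scoped MatrixGroups

/-- The rank of the group of rational points of `y² = x³ + a x + b`. -/
noncomputable def rank (a b : ℤ) : ℕ :=
  Module.finrank ℤ
    (WeierstrassCurve.Affine.Point
      (WeierstrassCurve.toAffine
        ({ a₁ := 0, a₂ := 0, a₃ := 0, a₄ := (a : ℚ), a₆ := (b : ℚ) } : WeierstrassCurve ℚ)))

/-- The number of rational points of `y² = x³ + a x + b`, the point at infinity included, with
`max (|m|, n) ≤ X` for the `x`-coordinate `m / n` in lowest terms. -/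
noncomputable def pointsUpTo (a b : ℤ) (X : ℝ) : ℕ :=
  Nat.card {P : ℚ × ℚ // P.2 ^ 2 = P.1 ^ 3 + a * P.1 + b ∧
    (max P.1.num.natAbs P.1.den : ℝ) ≤ X} + 1

/-- The original product `P(X)` of `(N_p + 1) / p` over the primes `p ≤ X`, `p ∤ 2Δ`. -/
noncomputable def product (a b : ℤ) (X : ℝ) : ℝ :=
  ∏ p ∈ (Finset.range (⌊X⌋₊ + 1)).filter (GoodPrime a b), (((pointCount a b p : ℝ) + 1) / p)

/-- `S(x)`: the sum of `a_p log p / p`, `a_p = p - N_p`, over the primes `p ≤ x`, `p ∤ 2Δ`. -/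
noncomputable def nagaoSum (a b : ℤ) (x : ℝ) : ℝ :=
  ∑ p ∈ (Finset.range (⌊x⌋₊ + 1)).filter (GoodPrime a b),
    ((p : ℝ) - pointCount a b p) * Real.log p / p

/-- `Π_k(X)`: the product over the primes `p ≤ X`, `p ∤ 2Δ`, of the powers of `(N_p + 1) / p` with
exponents `(1 - log p / log X)^k`. -/
noncomputable def rieszProduct (a b : ℤ) (k X : ℝ) : ℝ :=
  ∏ p ∈ (Finset.range (⌊X⌋₊ + 1)).filter (GoodPrime a b),
    (((pointCount a b p : ℝ) + 1) / p) ^ ((1 - Real.log p / Real.log X) ^ k)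

/-- `Π_w(X)`: the product over the primes `p ≤ X^β`, `p ∤ 2Δ`, of the powers of `(N_p + 1) / p` with
exponents `w(log p / log X)`. -/
noncomputable def localProduct (a b : ℤ) (w : ℝ → ℝ) (β X : ℝ) : ℝ :=
  ∏ p ∈ (Finset.range (⌊X ^ β⌋₊ + 1)).filter (GoodPrime a b),
    (((pointCount a b p : ℝ) + 1) / p) ^ w (Real.log p / Real.log X)

/-- The admissible weights on `(0, β]`: bounded and measurable, not almost everywhere `0` on any interval
`(κ, β)`, with `∫_0^β |w(u) - 1| du/u < ∞`. -/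
structure IsWeight (β : ℝ) (w : ℝ → ℝ) : Prop where
  pos : 0 < β
  meas : Measurable w
  bdd : ∃ W : ℝ, ∀ u : ℝ, 0 < u → u ≤ β → |w u| ≤ W
  top : ∀ κ : ℝ, κ < β → ¬ ∀ᵐ u : ℝ, u ∈ Set.Ioo κ β → w u = 0
  dini : IntegrableOn (fun u : ℝ => |w u - 1| / u) (Set.Ioo 0 β)

/-- The `n`-th Fourier coefficient of `f`. -/
noncomputable def coef {N : ℕ} (f : CuspForm (Gamma0 N : Subgroup (GL (Fin 2) ℝ)) 2) (n : ℕ) : ℂ :=
  (qExpansion 1 f).coeff n

/-- `f ∈ S_2(Γ₀(N))` is the newform of the elliptic curve `E : y² = x³ + a x + b` of conductor `N`: the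
Fourier coefficients `c(n)` of `f` are real with `c(1) = 1`, they satisfy the Hecke relations
`c(mn) = c(m) c(n)` for coprime `m`, `n` and `c(p^(j+2)) = c(p) c(p^(j+1)) - p c(p^j)` (without the last
term if `p ∣ N`), `c(p) = a_p = p - N_p` (`N_p` affine points) for all primes `p ∤ 2Δ`, `|c(p)| ≤ 2 √p` for
all `p ∤ N` (Hasse) and `c(p) = 0, 1, -1` for `p ∣ N`. -/
structure IsNewformOf (a b : ℤ) (N : ℕ) (f : CuspForm (Gamma0 N : Subgroup (GL (Fin 2) ℝ)) 2) :
    Prop where
  one : coef f 1 = 1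
  real : ∀ n, (coef f n).im = 0
  mul : ∀ m n : ℕ, Nat.Coprime m n → coef f (m * n) = coef f m * coef f n
  pow : ∀ p j : ℕ, p.Prime → coef f (p ^ (j + 2)) = coef f p * coef f (p ^ (j + 1)) -
      (if p ∣ N then 0 else (p : ℂ) * coef f (p ^ j))
  points : ∀ p : ℕ, GoodPrime a b p → coef f p = (p : ℂ) - (pointCount a b p : ℂ)
  good : ∀ p : ℕ, p.Prime → ¬ p ∣ N → ‖coef f p‖ ≤ 2 * Real.sqrt p
  bad : ∀ p : ℕ, p.Prime → p ∣ N → coef f p = 0 ∨ coef f p = 1 ∨ coef f p = -1

variable {a b : ℤ} {F : ℂ → ℂ}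

theorem old {N : ℕ} {f : CuspForm (Gamma0 N : Subgroup (GL (Fin 2) ℝ)) 2}
    (hf : IsNewformOf a b N f) : Pool.Agent.Results.MP_696deb_nt.RieszLaw.IsNewformOf a b N f :=
  ⟨hf.one, hf.real, hf.mul, hf.pow, hf.points, hf.good, hf.bad⟩

theorem oldw {β : ℝ} {w : ℝ → ℝ} (h : IsWeight β w) :
    Pool.Agent.Results.MP_696deb_nt.RieszLaw.IsWeight β w :=
  ⟨h.pos, h.meas, h.bdd, h.top, h.dini⟩

theorem neww {β : ℝ} {w : ℝ → ℝ} (h : Pool.Agent.Results.MP_696deb_nt.RieszLaw.IsWeight β w) :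
    IsWeight β w :=
  ⟨h.pos, h.meas, h.bdd, h.top, h.dini⟩

theorem points_mono (hΔ : 4 * a ^ 3 + 27 * b ^ 2 ≠ 0) {x y : ℝ} (hx : 1 ≤ x) (hxy : x ≤ y) :
    pointsUpTo a b x ≤ pointsUpTo a b y := by
  have hD : 4 * (a : ℚ) ^ 3 + 27 * (b : ℚ) ^ 2 ≠ 0 := by exact_mod_cast hΔ
  have h1 := TH942.ratCount_eq hD hx
  have h2 := TH942.ratCount_eq hD (hx.trans hxy)
  have h3 : pointsUpTo a b x = TH942.ratCount a b x := rfl
  have h4 : pointsUpTo a b y = TH942.ratCount a b y := rfl
  rw [h3, h4, h1, h2]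
  have h5 : Finite {P : TH942.SPt (a : ℚ) (b : ℚ) // TH942.sht P ≤ Real.log y} :=
    (TH942.sfinite_ht _).to_subtype
  have h6 := Real.log_le_log (by linarith : 0 < x) hxy
  exact Nat.card_le_card_of_injective
    (fun P : {P : TH942.SPt (a : ℚ) (b : ℚ) // TH942.sht P ≤ Real.log x} =>
      (⟨P.1, P.2.trans h6⟩ : {P : TH942.SPt (a : ℚ) (b : ℚ) // TH942.sht P ≤ Real.log y}))
    (fun P Q h => Subtype.ext (congrArg (fun z => z.1) h))

theorem one_le_points (a b : ℤ) (x : ℝ) : (1 : ℝ) ≤ pointsUpTo a b x := by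
  have : 1 ≤ pointsUpTo a b x := Nat.succ_le_succ (Nat.zero_le _)
  exact_mod_cast this

/-- the number of points is measurable and locally bounded -/
theorem bm_points (hΔ : 4 * a ^ 3 + 27 * b ^ 2 ≠ 0) :
    BM fun x => Real.log ((pointsUpTo a b x : ℝ) ^ 2) := by
  have he : (1 : ℝ) ≤ Real.exp 1 := by linarith [Real.add_one_le_exp 1]
  refine ⟨?_, fun Y => ⟨Real.log ((pointsUpTo a b Y : ℝ) ^ 2), fun y h1 h2 => ?_⟩⟩
  · have h1 : MonotoneOn (fun x => (pointsUpTo a b x : ℝ)) (Ioi (Real.exp 1)) := by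
      intro x hx y _ hxy
      have hx' : Real.exp 1 < x := hx
      show (pointsUpTo a b x : ℝ) ≤ (pointsUpTo a b y : ℝ)
      exact_mod_cast points_mono hΔ (he.trans hx'.le) hxy
    have h2 := aemeasurable_restrict_of_monotoneOn (μ := volume) measurableSet_Ioi h1
    exact (Real.measurable_log.comp_aemeasurable (h2.pow_const 2)).aestronglyMeasurable
  · have h3 := one_le_points a b y
    have h4 : (pointsUpTo a b y : ℝ) ≤ pointsUpTo a b Y := by
      exact_mod_cast points_mono hΔ (he.trans h1) h2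
    rw [abs_of_nonneg (Real.log_nonneg (one_le_pow₀ h3))]
    exact Real.log_le_log (by positivity) (pow_le_pow_left₀ (by positivity) h4 2)

/-- the leading coefficient is positive under the Riemann hypothesis -/
theorem coeff_pos (hF : IsLSeries a b F) {η C₀ : ℝ} {κ : ℕ} (hη : 0 < η)
    (hg : ∀ s : ℂ, 1 - η < s.re → ‖F s‖ ≤ C₀ * (1 + ‖s‖) ^ κ) {m : ℕ}
    (hm : analyticOrderAt F 1 = m) (hz : ∀ s : ℂ, 1 < s.re → F s ≠ 0) :
    ∃ A : ℝ, 0 < A ∧ iteratedDeriv m F 1 / (m.factorial : ℂ) = (A : ℂ) := by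
  have H := curve_mc hF hη hg
  have hz' : ∀ s : ℂ, 0 < s.re → F (1 + s) ≠ 0 := fun s hs => hz _ (by simpa using hs)
  have t : ((∀ s : ℂ, 0 < s.re → F (1 + s) ≠ 0) ∧ ∃ n : ℕ, (m : ℝ) = n ∧
      meromorphicOrderAt (fun s => F (1 + s)) 0 = (n : ℤ)) ↔
      ∃ A : ℝ, 0 < A ∧ IntegrableOn (fun Y : ℝ => DvR (nQ a b) (alQ a b) (m : ℝ) A Y ^ 2 / Y)
        (Ioi (Real.exp 1)) := (H.tfae_order_real (m : ℝ)).out 0 1
  obtain ⟨A, hA, h1⟩ := t.1 ⟨hz', m, rfl, (mero_iff hF).2 hm⟩
  obtain ⟨-, m', hm', h2⟩ := ((H.tfae_lead_real (m : ℝ) hA).out 0 1).2 h1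
  have hmm : m = m' := by exact_mod_cast hm'
  subst hmm
  exact ⟨A, hA, ((lim_iff hF (by exact_mod_cast hA.ne')).1 h2).2⟩

theorem dev_sub (hΔ : 4 * a ^ 3 + 27 * b ^ 2 ≠ 0) (hrs : Tendsto (rsSum a b) atTop (𝓝 0))
    (ρ : ℝ) {C : ℝ} (hC : 0 < C) :
    Tendsto (fun x => dev a b ρ C x - devStar a b ρ C x) atTop (𝓝 0) := by
  have h1 := (corr_lim hΔ hrs).const_sub (-(Real.log 2 / 2))
  rw [sub_self] at h1
  refine h1.congr' ?_
  filter_upwards [eventually_ge_atTop (Real.exp 1)] with x hx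
  rw [dev_eq hC hx, devStar_eq hC hx]
  ring

/-- **The original numerical law, in logarithmic mean, is equivalent to the rank form together with the Riemann
hypothesis.** -/
theorem result (a b : ℤ) (hΔ : 4 * a ^ 3 + 27 * b ^ 2 ≠ 0) (F : ℂ → ℂ) (hF : IsLSeries a b F)
    (N : ℕ) [NeZero N] (f : CuspForm (Gamma0 N : Subgroup (GL (Fin 2) ℝ)) 2)
    (hf : IsNewformOf a b N f) : List.TFAE [
      analyticOrderAt F 1 = rank a b ∧ ∀ s : ℂ, 1 < s.re → F s ≠ 0,
      ∃ c : ℝ, Tendsto (fun X : ℝ => (∫ x in Real.exp 1..X,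
        |Real.log ((pointsUpTo a b x : ℝ) ^ 2 / product a b x) - c| / x) / Real.log X) atTop (𝓝 0),
      ∃ c : ℝ, Tendsto (fun X : ℝ => (∫ x in Real.exp 1..X,
        (Real.log ((pointsUpTo a b x : ℝ) ^ 2 / product a b x) - c) ^ 2 / x) / Real.log X) atTop
          (𝓝 0),
      ∃ B : ℝ, ∀ᶠ X : ℝ in atTop, ∫ x in Real.exp 1..X,
        |Real.log ((pointsUpTo a b x : ℝ) ^ 2 / product a b x)| / x ≤ B * Real.log X,
      (∀ ε : ℝ, 0 < ε → ∃ B : ℝ, ∀ X : ℝ, 1 ≤ X → |Real.log (product a b X)| ≤ B * X ^ ε) ∧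
        ∃ (S : Set ℝ) (L : ℝ), MeasurableSet S ∧ ∫⁻ x in S, ENNReal.ofReal (1 / x) < ⊤ ∧ 0 < L ∧
          Tendsto (fun X : ℝ => (pointsUpTo a b X : ℝ) ^ 2 / product a b X) (atTop ⊓ 𝓟 Sᶜ) (𝓝 L),
      Tendsto (fun X : ℝ => (∫ x in Real.exp 1..X,
        |nagaoSum a b x / Real.log x - (1 / 2 - rank a b)| / x) / Real.log X) atTop (𝓝 0),
      ∀ k : ℝ, 0 < k → ∃ L : ℝ, 0 < L ∧
        Tendsto (fun X : ℝ => (pointsUpTo a b X : ℝ) ^ 2 / rieszProduct a b k X) atTop (𝓝 L),
      ∃ (β : ℝ) (w : ℝ → ℝ), IsWeight β w ∧ ∃ A B : ℝ, 0 < A ∧ 0 < B ∧ ∀ᶠ X : ℝ in atTop,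
        A * localProduct a b w β X ≤ (pointsUpTo a b X : ℝ) ^ 2 ∧
        (pointsUpTo a b X : ℝ) ^ 2 ≤ B * localProduct a b w β X,
      ∃ (β : ℝ) (w : ℝ → ℝ), IsWeight β w ∧
        Tendsto (fun X : ℝ => Real.log ((pointsUpTo a b X : ℝ) ^ 2 / localProduct a b w β X) /
          Real.log (Real.log X)) atTop (𝓝 0)] := by
  have hOld := Pool.Agent.Results.MP_696deb_nt.RieszLaw.result a b hΔ F hF N f (old hf)
  have hH := Pool.Agent.Results.MP_696deb_nt.RieszLaw.hecke (old hf)
  have hrs := Pool.Agent.Results.MP_696deb_nt.RieszLaw.rs hΔ (old hf)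
  obtain ⟨C₀, κ, hgr⟩ := growth_F hΔ hF hH fun p hp => hf.points p hp
  have hη : (0 : ℝ) < 1 / 8 := by norm_num
  obtain ⟨K, hK, hN⟩ := Pool.Agent.Results.MP_696deb_nt.RieszLaw.points_exact hΔ
  set r := rank a b with hr
  change Tendsto (fun X : ℝ => (pointsUpTo a b X : ℝ) ^ 2 / Real.log X ^ (r : ℝ)) atTop (𝓝 K) at hN
  have hNpos : ∀ x : ℝ, (0 : ℝ) < (pointsUpTo a b x : ℝ) ^ 2 := fun x => by
    have := one_le_points a b x
    positivity
  set u : ℝ → ℝ := fun x => Real.log ((pointsUpTo a b x : ℝ) ^ 2 / product a b x) with hu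
  have hueq : ∀ x : ℝ, u x =
      Real.log ((pointsUpTo a b x : ℝ) ^ 2) - Real.log (bsdProduct a b x) := by
    intro x
    have h1 := bsdProduct_pos (a := a) (b := b) x
    show Real.log ((pointsUpTo a b x : ℝ) ^ 2 / bsdProduct a b x) = _
    rw [Real.log_div (hNpos x).ne' h1.ne']
  have bmN := bm_points hΔ
  have bmu : BM u := BM.congr (bmN.sub (bm_product a b)) fun x _ => (hueq x).symm
  -- `log N(x)² - r log log x → log K`
  have hlogN : Tendsto (fun x => Real.log ((pointsUpTo a b x : ℝ) ^ 2) -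
      (r : ℝ) * Real.log (Real.log x)) atTop (𝓝 (Real.log K)) := by
    refine (hN.log hK.ne').congr' ?_
    filter_upwards [eventually_ge_atTop (Real.exp 1)] with x hx
    have hl : 0 < Real.log x := by linarith [one_le_log hx]
    rw [Real.log_div (hNpos x).ne' (Real.rpow_pos_of_pos hl _).ne', Real.log_rpow hl]
  -- and it is bounded
  have bmNl : BM fun x => Real.log ((pointsUpTo a b x : ℝ) ^ 2) - (r : ℝ) * Real.log (Real.log x) :=
    bmN.sub ((BM.const (r : ℝ)).mul BM.loglog)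
  obtain ⟨M, hM⟩ : ∃ M : ℝ, ∀ x : ℝ, Real.exp 1 ≤ x →
      |Real.log ((pointsUpTo a b x : ℝ) ^ 2) - (r : ℝ) * Real.log (Real.log x)| ≤ M := by
    obtain ⟨Y₀, hY₀⟩ := (Metric.tendsto_atTop.1 hlogN) 1 one_pos
    obtain ⟨M₀, hM₀⟩ := bmNl.2 Y₀
    refine ⟨|M₀| + (1 + |Real.log K|), fun x hx => ?_⟩
    rcases le_or_gt x Y₀ with h | h
    · have h3 := hM₀ x hx h
      have h4 := le_abs_self M₀
      have h5 := abs_nonneg (Real.log K)
      linarith
    · have h3 := hY₀ x h.le
      rw [Real.dist_eq] at h3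
      have h4 := abs_sub_abs_le_abs_sub (Real.log ((pointsUpTo a b x : ℝ) ^ 2) -
        (r : ℝ) * Real.log (Real.log x)) (Real.log K)
      have h5 := abs_nonneg M₀
      linarith
  have bmP : BM fun x => Real.log (bsdProduct a b x) - (r : ℝ) * Real.log (Real.log x) :=
    (bm_product a b).sub ((BM.const (r : ℝ)).mul BM.loglog)
  have hclose : ∀ x : ℝ, Real.exp 1 ≤ x → |u x - -(Real.log (bsdProduct a b x) -
      (r : ℝ) * Real.log (Real.log x))| ≤ M := by
    intro x hx
    have h1 : u x - -(Real.log (bsdProduct a b x) - (r : ℝ) * Real.log (Real.log x)) =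
        Real.log ((pointsUpTo a b x : ℝ) ^ 2) - (r : ℝ) * Real.log (Real.log x) := by
      rw [hueq]
      ring
    rw [h1]
    exact hM x hx
  tfae_have 1 → 3 := by
    rintro ⟨h1, h2⟩
    obtain ⟨A, hA, h3⟩ := coeff_pos hF hη hgr h1 h2
    set C' : ℝ := √2 * Real.exp (r * Real.eulerMascheroniConstant) / A with hC'
    have hC'0 : 0 < C' := by positivity
    have h4 : (√2 * Real.exp (r * Real.eulerMascheroniConstant) / C' : ℝ) = A := by
      have := Real.exp_pos ((r : ℝ) * Real.eulerMascheroniConstant)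
      rw [hC']
      field_simp
    have t : ((∀ s : ℂ, 1 < s.re → F s ≠ 0) ∧ ∃ m : ℕ, (r : ℝ) = m ∧ analyticOrderAt F 1 = m ∧
        iteratedDeriv m F 1 / (m.factorial : ℂ) =
          ((√2 * Real.exp (m * Real.eulerMascheroniConstant) / C' : ℝ) : ℂ)) ↔
        IntegrableOn (fun x : ℝ => devStar a b (r : ℝ) C' x ^ 2 / x) (Ioi (Real.exp 1)) :=
      (curve_law hΔ hF hrs hη hgr (r : ℝ) hC'0).out 0 3
    have h5 := t.1 ⟨h2, r, rfl, h1, by rw [h4]; exact h3⟩
    have bms := bm_devStar a b (ρ := r) hC'0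
    refine ⟨Real.log K - Real.log C', ?_⟩
    have d1 : Tendsto (fun x => (u x - (Real.log K - Real.log C')) - -devStar a b r C' x) atTop
        (𝓝 0) := by
      have h6 := (hlogN.sub_const (Real.log K)).sub (dev_sub hΔ hrs (r : ℝ) hC'0)
      rw [sub_self, sub_zero] at h6
      refine h6.congr' ?_
      filter_upwards [eventually_ge_atTop (Real.exp 1)] with x hx
      rw [hueq x, dev_eq hC'0 hx]
      ring
    have bmuc : BM fun x => u x - (Real.log K - Real.log C') := bmu.sub (BM.const _)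
    refine sq_lmean bmuc.sq.li (g := fun x => -devStar a b r C' x) ?_ (bmuc.sub bms.neg).sq.li d1
    simpa only [neg_sq] using h5
  tfae_have 3 → 2 := by
    rintro ⟨c, h⟩
    have bmuc : BM fun x => u x - c := bmu.sub (BM.const _)
    exact ⟨c, lmean_of_sq bmuc.li bmuc.sq.li h⟩
  tfae_have 2 → 4 := by
    rintro ⟨c, h⟩
    have bmuc : BM fun x => u x - c := bmu.sub (BM.const _)
    refine bmean_of bmuc.li bmu.li (M := |c|) (fun y _ => ?_) ⟨1, ?_⟩
    · have : u y - c - u y = -c := by ring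
      rw [this, abs_neg]
    · have h1 := h.eventually_lt_const one_pos
      filter_upwards [h1, eventually_ge_atTop (Real.exp 1)] with X h2 hX
      have hl : 0 < Real.log X := by linarith [one_le_log hX]
      rw [div_lt_iff₀ hl] at h2
      exact h2.le
  tfae_have 4 → 1 := by
    intro h
    have h1 := bmean_of bmu.li bmP.neg.li hclose h
    simp only [abs_neg] at h1
    obtain ⟨h2, m, hm, h3⟩ := (curve_order hΔ hF hrs hη hgr (r : ℝ)).2 h1
    have hmr : r = m := by exact_mod_cast hm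
    exact ⟨by rw [h3, hmr], h2⟩
  tfae_have 1 → 5 := by
    rintro ⟨h1, h2⟩
    refine ⟨fun ε hε => Pool.Agent.TH942.OB.log_bound hF hη hgr h2 hε, ?_⟩
    obtain ⟨S, c, hS1, hS2, hS3⟩ := off_law hΔ hF hrs hη hgr h2 h1
    refine ⟨S, Real.exp (Real.log K - c), hS1, hS2, Real.exp_pos _, ?_⟩
    have h3 := (hlogN.mono_left (inf_le_left (b := 𝓟 Sᶜ))).sub hS3
    have h4 : Tendsto u (atTop ⊓ 𝓟 Sᶜ) (𝓝 (Real.log K - c)) := h3.congr fun x => by
      rw [hueq]
      ring
    refine ((Real.continuous_exp.tendsto _).comp h4).congr fun x => ?_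
    show Real.exp (Real.log ((pointsUpTo a b x : ℝ) ^ 2 / product a b x)) = _
    exact Real.exp_log (div_pos (hNpos x) (bsdProduct_pos (a := a) (b := b) x))
  tfae_have 5 → 1 := by
    rintro ⟨h1, S, L, hS1, hS2, hL, h3⟩
    have hz := rh_of_growth hΔ hF hrs hη hgr h1
    obtain ⟨m, hm⟩ := Pool.Agent.W189.ML.order_finite_all hF 1
    obtain ⟨S', c, hS'1, hS'2, h4⟩ := off_law hΔ hF hrs hη hgr hz hm
    have hU : ∫⁻ x in S ∪ S', ENNReal.ofReal (1 / x) < ⊤ :=
      (lintegral_union_le _ _ _).trans_lt (ENNReal.add_lt_top.2 ⟨hS2, hS'2⟩)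
    have hne : (atTop ⊓ 𝓟 (S ∪ S')ᶜ : Filter ℝ).NeBot := exc_neBot hU
    have l1 : (atTop ⊓ 𝓟 (S ∪ S')ᶜ : Filter ℝ) ≤ atTop ⊓ 𝓟 Sᶜ :=
      inf_le_inf_left _ (principal_mono.2 (compl_subset_compl.2 subset_union_left))
    have l2 : (atTop ⊓ 𝓟 (S ∪ S')ᶜ : Filter ℝ) ≤ atTop ⊓ 𝓟 S'ᶜ :=
      inf_le_inf_left _ (principal_mono.2 (compl_subset_compl.2 subset_union_right))
    have h5 : Tendsto u (atTop ⊓ 𝓟 (S ∪ S')ᶜ) (𝓝 (Real.log L)) := (h3.log hL.ne').mono_left l1
    have h6 : Tendsto (fun x => ((r : ℝ) - m) * Real.log (Real.log x)) (atTop ⊓ 𝓟 (S ∪ S')ᶜ)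
        (𝓝 (Real.log L - Real.log K + c)) := by
      refine ((h5.sub (hlogN.mono_left inf_le_left)).add (h4.mono_left l2)).congr fun x => ?_
      rw [hueq]
      ring
    have h7 : Tendsto (fun x => Real.log (Real.log x)) (atTop ⊓ 𝓟 (S ∪ S')ᶜ : Filter ℝ) atTop :=
      (Real.tendsto_log_atTop.comp Real.tendsto_log_atTop).mono_left inf_le_left
    have h8 : (r : ℝ) = m := by
      rcases lt_trichotomy (r : ℝ) m with h | h | h
      · exact (not_tendsto_nhds_of_tendsto_atBot
          (h7.const_mul_atTop_of_neg (sub_neg.2 h)) _ h6).elim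
      · exact h
      · exact (not_tendsto_nhds_of_tendsto_atTop
          (h7.const_mul_atTop (sub_pos.2 h)) _ h6).elim
    have h9 : r = m := by exact_mod_cast h8
    exact ⟨by rw [hm, ← h9], hz⟩
  tfae_have 1 ↔ 6 := by
    obtain ⟨m, hm⟩ := Pool.Agent.W189.ML.order_finite_all hF 1
    have t : ((∀ s : ℂ, 1 < s.re → F s ≠ 0) ∧ (1 / 2 - (r : ℝ)) = 1 / 2 - (m : ℝ)) ↔
        Tendsto (fun X : ℝ => (∫ x in Real.exp 1..X,
          |nagaoSum a b x / Real.log x - (1 / 2 - (r : ℝ))| / x) / Real.log X) atTop (𝓝 0) :=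
      (Pool.Agent.TH270.NG.law hH hΔ (fun p hp => hf.points p hp) hF hrs hη hgr
        (1 / 2 - (r : ℝ)) hm).out 0 1
    rw [← t]
    constructor
    · rintro ⟨h1, h2⟩
      have h3 : m = r := by
        have : (m : ℕ∞) = (r : ℕ∞) := hm.symm.trans h1
        exact_mod_cast this
      exact ⟨h2, by rw [h3]⟩
    · rintro ⟨h2, h3⟩
      have h4 : (r : ℝ) = m := by linarith
      have h5 : r = m := by exact_mod_cast h4
      exact ⟨by rw [hm, ← h5], h2⟩
  tfae_have 1 → 7 := fun h => (hOld.out 0 1).1 h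
  tfae_have 7 → 8 := by
    intro h
    obtain ⟨β, w, hw, h1⟩ := (hOld.out 1 3).1 h
    exact ⟨β, w, neww hw, h1⟩
  tfae_have 8 → 9 := by
    rintro ⟨β, w, hw, h1⟩
    have t : (∃ (β : ℝ) (w : ℝ → ℝ), Pool.Agent.Results.MP_696deb_nt.RieszLaw.IsWeight β w ∧
        ∃ A B : ℝ, 0 < A ∧ 0 < B ∧ ∀ᶠ X : ℝ in atTop,
        A * localProduct a b w β X ≤ (pointsUpTo a b X : ℝ) ^ 2 ∧
        (pointsUpTo a b X : ℝ) ^ 2 ≤ B * localProduct a b w β X) ↔
      ∃ (β : ℝ) (w : ℝ → ℝ), Pool.Agent.Results.MP_696deb_nt.RieszLaw.IsWeight β w ∧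
        Tendsto (fun X : ℝ => Real.log ((pointsUpTo a b X : ℝ) ^ 2 / localProduct a b w β X) /
          Real.log (Real.log X)) atTop (𝓝 0) := hOld.out 3 4
    obtain ⟨β', w', hw', h2⟩ := t.1 ⟨β, w, oldw hw, h1⟩
    exact ⟨β', w', neww hw', h2⟩
  tfae_have 9 → 1 := by
    rintro ⟨β, w, hw, h1⟩
    have t : (∃ (β : ℝ) (w : ℝ → ℝ), Pool.Agent.Results.MP_696deb_nt.RieszLaw.IsWeight β w ∧
        Tendsto (fun X : ℝ => Real.log ((pointsUpTo a b X : ℝ) ^ 2 / localProduct a b w β X) /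
          Real.log (Real.log X)) atTop (𝓝 0)) ↔
      (analyticOrderAt F 1 = rank a b ∧ ∀ s : ℂ, 1 < s.re → F s ≠ 0) := hOld.out 4 0
    exact t.1 ⟨β, w, oldw hw, h1⟩
  tfae_finish

end Pool.Agent.Results.MP_696deb_nt.OriginalLaw
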