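import Mathlib
import Pool.Agent.TH562.T1.Final
import Pool.Agent.TH562.RF.Sign
import Pool.Agent.TH942.FG
import Pool.Agent.W263.BSD.Defs

/-!
# Rank at least two in almost all short intervals, one rational point of order two

Let `E : y² = x³ + a x + b` be an elliptic curve over `ℚ` with a rational point of order two and
`j ≠ 0, 1728`. In almost all intervals `[x, x + x^θ]`, `θ > 3/4`, there is a squarefree `|t|` for which
the twist `E_t : y² = x³ + a t² x + b t³` has rank at least two. By the theorem of Gross and Zagier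
and of Kolyvagin (a hypothesis of the second half of the statement) the order of vanishing of
`L(E_t, s)` at `s = 1` is at least two as well.
-/

set_option autoImplicit false

namespace Pool.Agent.Results.MP_696deb_nt.RankTwoOneTorsion

open Pool.Agent.W263.BSD (IsLSeries)
open Pool.Agent.TH562.RF (rank GrossZagierKolyvagin)

theorem two_le_finrank {G : Type*} [AddCommGroup G] (hG : AddGroup.FG G) (P R : G)
    (h : ∀ m n : ℤ, m • P + n • R = 0 → m = 0 ∧ n = 0) : 2 ≤ Module.finrank ℤ G := by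
  have hfin : Module.Finite ℤ G := Module.Finite.iff_addGroup_fg.2 hG
  have hl : LinearIndependent ℤ ![P, R] := LinearIndependent.pair_iff.2 h
  simpa using hl.fintype_card_le_finrank

theorem rank_of_twist {a b : ℤ} (hne : 4 * a ^ 3 + 27 * b ^ 2 ≠ 0) {t : ℤ} (ht : t ≠ 0)
    (h : Pool.Agent.TH562.T1.RankAtLeastTwo (Pool.Agent.TH562.T1.sw a b t)) :
    4 * (a * t ^ 2) ^ 3 + 27 * (b * t ^ 3) ^ 2 ≠ 0 ∧ 2 ≤ rank (a * t ^ 2) (b * t ^ 3) := by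
  have hne' : 4 * (a * t ^ 2) ^ 3 + 27 * (b * t ^ 3) ^ 2 ≠ 0 := by
    have e : 4 * (a * t ^ 2) ^ 3 + 27 * (b * t ^ 3) ^ 2 = t ^ 6 * (4 * a ^ 3 + 27 * b ^ 2) := by ring
    rw [e]
    exact mul_ne_zero (pow_ne_zero 6 ht) hne
  refine ⟨hne', ?_⟩
  obtain ⟨P, R, hPR⟩ := h
  have hfg := Pool.Agent.TH942.sfg (F := ℚ) (a := ((a * t ^ 2 : ℤ) : ℚ))
    (b := ((b * t ^ 3 : ℤ) : ℚ)) (by exact_mod_cast hne')
  exact two_le_finrank hfg P R hPR

open Classical in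
/-- **Theorem.** `r ≠ 0` holds if `b ≠ 0`. -/
theorem result (a b r : ℤ) (hΔ : 4 * a ^ 3 + 27 * b ^ 2 ≠ 0) (ha : a ≠ 0)
    (hr : r ^ 3 + a * r + b = 0) (hr0 : r ≠ 0) :
    ∃ h : ℕ, Squarefree h ∧ ∃ ε : ℤ, (ε = 1 ∨ ε = -1) ∧
      ∀ θ : ℝ, 3 / 4 < θ → ∀ M : ℕ, 0 < M → ∀ δ : ℝ, 0 < δ →
      ∀ᶠ N : ℕ in Filter.atTop, (((Finset.Icc 1 N).filter fun x : ℕ =>
        ¬ ∃ d : ℕ, ∃ t : ℤ, t = ε * (h * d : ℕ) ∧
          (x : ℝ) ≤ (h * d : ℕ) ∧ ((h * d : ℕ) : ℝ) ≤ x + (x : ℝ) ^ θ ∧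
          Squarefree (h * d) ∧ d ≡ 1 [MOD M] ∧
          2 ≤ rank (a * t ^ 2) (b * t ^ 3) ∧
          (GrossZagierKolyvagin → ∀ F : ℂ → ℂ, IsLSeries (a * t ^ 2) (b * t ^ 3) F →
            2 ≤ analyticOrderAt F 1)).card : ℝ) ≤ δ * N := by
  have hA : (3 * r : ℤ) ≠ 0 := mul_ne_zero (by norm_num) hr0
  have hdisc : 4 * a ^ 3 + 27 * b ^ 2 = (3 * r ^ 2 + a) ^ 2 * (3 * r ^ 2 + 4 * a) := by
    have hb : b = -(r ^ 3 + a * r) := by linarith
    rw [hb]; ring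
  have hB : (3 * r ^ 2 + a : ℤ) ≠ 0 := by
    intro h0
    rw [hdisc, h0] at hΔ
    exact hΔ (by ring)
  have hD : (3 * r : ℤ) ^ 2 - 4 * (3 * r ^ 2 + a) ≠ 0 := by
    intro h0
    apply hΔ
    have : 3 * r ^ 2 + 4 * a = 0 := by linarith
    rw [hdisc, this, mul_zero]
  have h3 : (3 * r : ℤ) ^ 2 - 3 * (3 * r ^ 2 + a) ≠ 0 := by
    intro h0
    apply ha
    have : 3 * a = 0 := by linarith
    omega
  obtain ⟨h, hh, hmain⟩ := Pool.Agent.TH562.T1.main (A := 3 * r) (B := 3 * r ^ 2 + a) hr rfl rfl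
    hA hB hD h3
  obtain ⟨ε, hε⟩ : ∃ ε : ℤ, ε = (-(3 * r * (3 * r ^ 2 + a))).sign := ⟨_, rfl⟩
  have hε1 : ε = 1 ∨ ε = -1 := by
    rw [hε]
    rcases lt_or_gt_of_ne (neg_ne_zero.2 (mul_ne_zero hA hB)) with h' | h'
    · right; exact Int.sign_eq_neg_one_of_neg h'
    · left; exact Int.sign_eq_one_of_pos h'
  refine ⟨h, hh, ε, hε1, fun θ hθ M hM δ hδ => ?_⟩
  filter_upwards [hmain θ hθ M hM δ hδ] with N hN
  refine le_trans (Nat.cast_le.2 (Finset.card_le_card ?_)) hN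
  intro x hx
  obtain ⟨hx1, hx2⟩ := Finset.mem_filter.1 hx
  refine Finset.mem_filter.2 ⟨hx1, fun hex => hx2 ?_⟩
  obtain ⟨d, hd1, hd2, hd3, hd4, hd5⟩ := hex
  rw [← hε] at hd5
  have ht0 : ε * ((h * d : ℕ) : ℤ) ≠ 0 := by
    refine mul_ne_zero ?_ ?_
    · rcases hε1 with h' | h' <;> rw [h'] <;> norm_num
    · exact_mod_cast hd3.ne_zero
  obtain ⟨hne, hrk⟩ := rank_of_twist hΔ ht0 hd5
  refine ⟨d, _, rfl, by exact_mod_cast hd1, hd2, hd3, hd4, hrk, fun hGZK F hF => ?_⟩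
  by_contra hcon
  push Not at hcon
  have hle : analyticOrderAt F 1 ≤ 1 := by
    obtain ⟨n, hn⟩ := ENat.ne_top_iff_exists.1 (ne_top_of_lt hcon)
    rw [← hn] at hcon ⊢
    have h2 : n < 2 := by exact_mod_cast hcon
    have h3 : n ≤ 1 := by omega
    exact_mod_cast h3
  have heq := hGZK _ _ hne F hF hle
  rw [heq] at hcon
  have : rank (a * (ε * ((h * d : ℕ) : ℤ)) ^ 2) (b * (ε * ((h * d : ℕ) : ℤ)) ^ 3) < 2 := by
    exact_mod_cast hcon
  omega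

end Pool.Agent.Results.MP_696deb_nt.RankTwoOneTorsion
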