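import Mathlib
import Pool.Agent.TH562.R2.Tw
import Pool.Agent.TH942.FG
import Pool.Agent.W263.BSD.Defs

/-!
# The open case `ord ≥ 2` of the rank form in almost all short intervals

Let `E : y² = x³ + A x + B` be an elliptic curve over `ℚ` with full rational 2-torsion and let `E_t` be its
quadratic twist by `t`, `y² = x³ + A t² x + B t³`. For both signs and in almost all intervals
`[x, x + C x^(3/4)]` there is a squarefree `|t|` for which `E_t` has rank at least two. By the theorem of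
Gross and Zagier and of Kolyvagin (a hypothesis of the second half of the statement) the order of
vanishing of `L(E_t, s)` at `s = 1` is at least two as well.
-/

set_option autoImplicit false

namespace Pool.Agent.Results.MP_696deb_nt.RankTwoTwists

open Pool.Agent.W263.BSD (IsLSeries)

/-- The rank of the group of rational points of `y² = x³ + a x + b`. -/
noncomputable def rank (a b : ℤ) : ℕ :=
  Module.finrank ℤ
    (WeierstrassCurve.Affine.Point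
      (WeierstrassCurve.toAffine
        ({ a₁ := 0, a₂ := 0, a₃ := 0, a₄ := (a : ℚ), a₆ := (b : ℚ) } : WeierstrassCurve ℚ)))

/-- The theorem of Gross and Zagier and of Kolyvagin (for the modular curves, so by the modularity
theorem for all elliptic curves over `ℚ`): the order of vanishing at `s = 1` of the (incomplete)
`L`-series is the rank whenever this order is at most one. -/
def GrossZagierKolyvagin : Prop :=
  ∀ a b : ℤ, 4 * a ^ 3 + 27 * b ^ 2 ≠ 0 → ∀ F : ℂ → ℂ, IsLSeries a b F →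
    analyticOrderAt F 1 ≤ 1 → analyticOrderAt F 1 = rank a b

theorem two_le_finrank {G : Type*} [AddCommGroup G] (hG : AddGroup.FG G) (P R : G)
    (h : ∀ m n : ℤ, m • P + n • R = 0 → m = 0 ∧ n = 0) : 2 ≤ Module.finrank ℤ G := by
  have hfin : Module.Finite ℤ G := Module.Finite.iff_addGroup_fg.2 hG
  have hl : LinearIndependent ℤ ![P, R] := LinearIndependent.pair_iff.2 h
  simpa using hl.fintype_card_le_finrank

theorem rank_of_twist {A B e₁ e₂ e₃ : ℤ} (hs : e₁ + e₂ + e₃ = 0)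
    (hA : A = e₁ * e₂ + e₁ * e₃ + e₂ * e₃) (hB : B = -(e₁ * e₂ * e₃))
    (h12 : e₁ ≠ e₂) (h13 : e₁ ≠ e₃) (h23 : e₂ ≠ e₃) {t : ℤ} (ht : t ≠ 0)
    (h : Pool.Agent.TH562.R2.Tw.RankAtLeastTwo (Pool.Agent.TH562.R2.Tw.twist e₁ e₂ e₃ t)) :
    4 * (A * t ^ 2) ^ 3 + 27 * (B * t ^ 3) ^ 2 ≠ 0 ∧ 2 ≤ rank (A * t ^ 2) (B * t ^ 3) := by
  have hdisc : 4 * A ^ 3 + 27 * B ^ 2 = -((e₁ - e₂) * (e₂ - e₃) * (e₃ - e₁)) ^ 2 := by
    have h3 : e₃ = -e₁ - e₂ := by linarith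
    rw [hA, hB, h3]; ring
  have hne : 4 * A ^ 3 + 27 * B ^ 2 ≠ 0 := by
    rw [hdisc, neg_ne_zero]
    exact pow_ne_zero 2 (mul_ne_zero (mul_ne_zero (sub_ne_zero.2 h12) (sub_ne_zero.2 h23))
      (sub_ne_zero.2 h13.symm))
  have hne' : 4 * (A * t ^ 2) ^ 3 + 27 * (B * t ^ 3) ^ 2 ≠ 0 := by
    have e : 4 * (A * t ^ 2) ^ 3 + 27 * (B * t ^ 3) ^ 2 = t ^ 6 * (4 * A ^ 3 + 27 * B ^ 2) := by ring
    rw [e]
    exact mul_ne_zero (pow_ne_zero 6 ht) hne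
  refine ⟨hne', ?_⟩
  have hcrv : Pool.Agent.TH562.R2.Tw.twist e₁ e₂ e₃ t =
      ({ a₁ := 0, a₂ := 0, a₃ := 0, a₄ := ((A * t ^ 2 : ℤ) : ℚ), a₆ := ((B * t ^ 3 : ℤ) : ℚ) } :
        WeierstrassCurve ℚ) := by
    unfold Pool.Agent.TH562.R2.Tw.twist
    rw [hs, hA, hB]
    congr 1
    simp
  rw [hcrv] at h
  obtain ⟨P, R, hPR⟩ := h
  have hfg := Pool.Agent.TH942.sfg (F := ℚ) (a := ((A * t ^ 2 : ℤ) : ℚ))
    (b := ((B * t ^ 3 : ℤ) : ℚ)) (by exact_mod_cast hne')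
  exact two_le_finrank hfg P R hPR

open Classical in
/-- **Theorem.** -/
theorem result (A B e₁ e₂ e₃ : ℤ)
    (hAB : ∀ x : ℤ, x ^ 3 + A * x + B = (x - e₁) * (x - e₂) * (x - e₃))
    (h12 : e₁ ≠ e₂) (h13 : e₁ ≠ e₃) (h23 : e₂ ≠ e₃) :
    ∃ h : ℕ, Squarefree h ∧ ∀ M : ℕ, 0 < M → ∀ δ : ℝ, 0 < δ → ∃ C : ℝ, 0 < C ∧
      ∀ᶠ N : ℕ in Filter.atTop, (((Finset.Icc 1 N).filter fun x : ℕ =>
        ¬ ∀ ε ∈ ({1, -1} : Set ℤ), ∃ d : ℕ, ∃ t : ℤ, t = ε * (h * d : ℕ) ∧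
          (x : ℝ) ≤ (h * d : ℕ) ∧ ((h * d : ℕ) : ℝ) ≤ x + C * (x : ℝ) ^ ((3 : ℝ) / 4) ∧
          Squarefree (h * d) ∧ d ≡ 1 [MOD M] ∧
          2 ≤ rank (A * t ^ 2) (B * t ^ 3) ∧
          (GrossZagierKolyvagin → ∀ F : ℂ → ℂ, IsLSeries (A * t ^ 2) (B * t ^ 3) F →
            2 ≤ analyticOrderAt F 1)).card : ℝ) ≤ δ * N := by
  have hs : e₁ + e₂ + e₃ = 0 := by
    have h0 := hAB 0
    have h1 := hAB 1
    have h2 := hAB (-1)
    linarith
  have hB : B = -(e₁ * e₂ * e₃) := by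
    have h0 := hAB 0
    linarith
  have hA : A = e₁ * e₂ + e₁ * e₃ + e₂ * e₃ := by
    have h1 := hAB 1
    have h2 := hAB (-1)
    linarith
  obtain ⟨h, g, hh, hhg, hmain⟩ := Pool.Agent.TH562.R2.Tw.main_tw e₁ e₂ e₃ h12 h13 h23
  refine ⟨h, hh, fun M hM δ hδ => ?_⟩
  obtain ⟨C, hC, hN⟩ := hmain M hM δ hδ
  refine ⟨C, hC, ?_⟩
  filter_upwards [hN] with N hN
  refine le_trans (Nat.cast_le.2 (Finset.card_le_card ?_)) hN
  intro x hx
  obtain ⟨hx1, hx2⟩ := Finset.mem_filter.1 hx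
  refine Finset.mem_filter.2 ⟨hx1, fun hex => hx2 ?_⟩
  intro ε hε
  obtain ⟨d, hd1, hd2, hd3, hd4, hd5⟩ := hex ε hε
  have hε0 : ε ≠ 0 := by
    simp only [Set.mem_insert_iff, Set.mem_singleton_iff] at hε
    rcases hε with rfl | rfl <;> norm_num
  have ht0 : ε * ((h * d : ℕ) : ℤ) ≠ 0 := by
    refine mul_ne_zero hε0 ?_
    exact_mod_cast hd3.ne_zero
  obtain ⟨hne, hrk⟩ := rank_of_twist hs hA hB h12 h13 h23 ht0 hd5
  refine ⟨d, _, rfl, hd1, hd2, hd3, hd4, hrk, fun hGZK F hF => ?_⟩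
  by_contra hcon
  push Not at hcon
  have hle : analyticOrderAt F 1 ≤ 1 := by
    obtain ⟨n, hn⟩ := ENat.ne_top_iff_exists.1 (ne_top_of_lt hcon)
    rw [← hn] at hcon ⊢
    have h2 : n < 2 := by exact_mod_cast hcon
    have h3 : n ≤ 1 := by omega
    exact_mod_cast h3
  have heq := hGZK _ _ hne F hF hle
  rw [heq] at hcon
  have : rank (A * (ε * ((h * d : ℕ) : ℤ)) ^ 2) (B * (ε * ((h * d : ℕ) : ℤ)) ^ 3) < 2 := by
    exact_mod_cast hcon
  omega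

end Pool.Agent.Results.MP_696deb_nt.RankTwoTwists
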