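import Mathlib
import Pool.Agent.TH562.TW.Tw
import Pool.Agent.TH562.RF.Sign

/-!
# Twists of positive rank whose `L`-series has sign `+1`, in almost all short intervals

For every elliptic curve `E : y² = x³ + A x + B` over `ℚ`, in almost all intervals `[x, x + C x^(5/8)]`
there are twists of positive rank in all classes and of both signs. By the theorem of Gross and Zagier
and of Kolyvagin their `L`-series vanishes at `s = 1`, and where the sign of the functional equation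
is `+1` it vanishes to order at least two: this is the open case of the conjecture.
-/

set_option autoImplicit false

namespace Pool.Agent.Results.MP_696deb_nt.TwistsAlmostAllIntervals

open Pool.Agent.W263.BSD (IsLSeries)
open Pool.Agent.TH562.RF (rank GrossZagierKolyvagin SignIs)

/-- For every class `b` prime to `M` there is `e = 1` or `-1` such that the functional equations of
all twists by `e d ≡ b mod M`, `d` squarefree, of `y² = x³ + A x + B` have the sign `+1`. (For every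
`A`, `B` this is true for all multiples `M` of some `M₀`.) -/
def SignLaw (A B : ℤ) (M : ℕ) : Prop :=
  ∀ b : ℤ, IsCoprime b M → ∃ e ∈ ({1, -1} : Set ℤ), ∀ d : ℕ, Squarefree d →
    e * d ≡ b [ZMOD M] → ∀ F : ℂ → ℂ, IsLSeries (A * (e * d) ^ 2) (B * (e * d) ^ 3) F →
      SignIs (A * (e * d) ^ 2) (B * (e * d) ^ 3) F 1

theorem disc_ne {A B t : ℤ} (hΔ : 4 * A ^ 3 + 27 * B ^ 2 ≠ 0) (ht : t ≠ 0) :
    4 * (A * t ^ 2) ^ 3 + 27 * (B * t ^ 3) ^ 2 ≠ 0 := by
  have e : 4 * (A * t ^ 2) ^ 3 + 27 * (B * t ^ 3) ^ 2 = t ^ 6 * (4 * A ^ 3 + 27 * B ^ 2) := by ring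
  rw [e]
  exact mul_ne_zero (pow_ne_zero 6 ht) hΔ

open Classical in
/-- **Theorem.** -/
theorem result (A B : ℤ) (hΔ : 4 * A ^ 3 + 27 * B ^ 2 ≠ 0) (M : ℕ) (hM : 0 < M)
    (δ : ℝ) (hδ : 0 < δ) :
    ∃ C : ℝ, 0 < C ∧ ∀ᶠ N : ℕ in Filter.atTop,
      (((Finset.Icc 1 N).filter fun x : ℕ => ¬ (
        (∀ a : ℕ, a.Coprime M → ∀ e ∈ ({1, -1} : Set ℤ), ∃ d : ℕ,
          (x : ℝ) ≤ d ∧ (d : ℝ) ≤ x + C * (x : ℝ) ^ ((5 : ℝ) / 8) ∧
          Squarefree d ∧ d ≡ a [MOD M] ∧ 1 ≤ rank (A * (e * d) ^ 2) (B * (e * d) ^ 3) ∧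
          (GrossZagierKolyvagin → ∀ F : ℂ → ℂ,
            IsLSeries (A * (e * d) ^ 2) (B * (e * d) ^ 3) F → F 1 = 0)) ∧
        (GrossZagierKolyvagin → SignLaw A B M → ∀ b : ℤ, IsCoprime b M →
          ∃ e ∈ ({1, -1} : Set ℤ), ∃ d : ℕ,
          (x : ℝ) ≤ d ∧ (d : ℝ) ≤ x + C * (x : ℝ) ^ ((5 : ℝ) / 8) ∧
          Squarefree d ∧ e * d ≡ b [ZMOD M] ∧ 1 ≤ rank (A * (e * d) ^ 2) (B * (e * d) ^ 3) ∧
          ∀ F : ℂ → ℂ, IsLSeries (A * (e * d) ^ 2) (B * (e * d) ^ 3) F →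
            2 ≤ analyticOrderAt F 1))).card : ℝ) ≤ δ * N := by
  obtain ⟨C, hC, hN⟩ := Pool.Agent.TH562.TW.Tw.main_tw A B hΔ M hM δ hδ
  refine ⟨C, hC, ?_⟩
  filter_upwards [hN] with N hN
  refine le_trans (Nat.cast_le.2 (Finset.card_le_card ?_)) hN
  intro x hx
  obtain ⟨hx1, hx2⟩ := Finset.mem_filter.1 hx
  refine Finset.mem_filter.2 ⟨hx1, fun hex => hx2 ?_⟩
  have hall : ∀ a : ℕ, a.Coprime M → ∀ e ∈ ({1, -1} : Set ℤ), ∃ d : ℕ,
          (x : ℝ) ≤ d ∧ (d : ℝ) ≤ x + C * (x : ℝ) ^ ((5 : ℝ) / 8) ∧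
          Squarefree d ∧ d ≡ a [MOD M] ∧ 1 ≤ rank (A * (e * d) ^ 2) (B * (e * d) ^ 3) ∧
          (GrossZagierKolyvagin → ∀ F : ℂ → ℂ,
            IsLSeries (A * (e * d) ^ 2) (B * (e * d) ^ 3) F → F 1 = 0) := by
    intro a ha e he
    obtain ⟨d, hd1, hd2, hd3, hd4, hd5⟩ := hex a ha e he
    have he0 : e ≠ 0 := by
      simp only [Set.mem_insert_iff, Set.mem_singleton_iff] at he
      rcases he with rfl | rfl <;> norm_num
    have ht0 : e * (d : ℤ) ≠ 0 := mul_ne_zero he0 (by exact_mod_cast hd3.ne_zero)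
    have hne := disc_ne hΔ ht0
    have hr : 1 ≤ rank (A * (e * d) ^ 2) (B * (e * d) ^ 3) :=
      Pool.Agent.TH562.RF.one_le_rank hne hd5
    refine ⟨d, hd1, hd2, hd3, hd4, hr, fun hGZK F hF => ?_⟩
    have h1 := Pool.Agent.TH562.RF.order_ge hGZK hne hF (k := 1) (by norm_num) hr
    refine apply_eq_zero_of_analyticOrderAt_ne_zero (𝕜 := ℂ) ?_
    intro h0
    rw [h0] at h1
    exact absurd h1 (by norm_num)
  refine ⟨hall, fun hGZK hS b hb => ?_⟩
  obtain ⟨e, he, hsign⟩ := hS b hb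
  have hMZ : (0 : ℤ) < M := by exact_mod_cast hM
  have he2 : e * e = 1 := by
    simp only [Set.mem_insert_iff, Set.mem_singleton_iff] at he
    rcases he with rfl | rfl <;> norm_num
  have hea : (((e * b) % M).toNat : ℤ) = (e * b) % M := Int.toNat_of_nonneg (Int.emod_nonneg _ hMZ.ne')
  have hcop : (((e * b) % M).toNat).Coprime M := by
    rw [← Nat.isCoprime_iff_coprime, hea, Int.emod_def]
    have h1 : IsCoprime (e * b) (M : ℤ) := by
      refine IsCoprime.mul_left ?_ hb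
      exact ⟨e, 0, by rw [he2]; ring⟩
    have h2 : e * b - (M : ℤ) * (e * b / M) = e * b + (M : ℤ) * (-(e * b / M)) := by ring
    rw [h2]
    exact (IsCoprime.add_mul_left_left_iff).2 h1
  obtain ⟨d, hd1, hd2, hd3, hd4, hd5, hd6⟩ := hall _ hcop e he
  have hed : e * d ≡ b [ZMOD M] := by
    have h1 : (d : ℤ) ≡ (((e * b) % M).toNat : ℕ) [ZMOD M] := (Int.natCast_modEq_iff).2 hd4
    rw [hea] at h1
    have h2 : (d : ℤ) ≡ e * b [ZMOD M] := h1.trans (Int.mod_modEq _ _)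
    have h3 := h2.mul_left e
    rwa [← mul_assoc, he2, one_mul] at h3
  refine ⟨e, he, d, hd1, hd2, hd3, hed, hd5, fun F hF => ?_⟩
  exact Pool.Agent.TH562.RF.two_le_of_sign (hsign d hd3 hed F hF) (hd6 hGZK F hF)

end Pool.Agent.Results.MP_696deb_nt.TwistsAlmostAllIntervals
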